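import Pool.Agent.P.MP_751979_al.Cog

set_option autoImplicit false

namespace Pool.Agent.Results.MP_751979_al.Gap

/-- For every group `G` the cogrowth invariant `η(G)` lies outside the open interval `(1/2, 1)`. -/
theorem result (G : Type*) [Group G] :
    sInf {e : ℝ | ∃ r : ℕ, 2 ≤ r ∧ ∃ f : FreeGroup (Fin r) →* G,
        e = Real.log (Filter.limsup
              (fun n : ℕ =>
                ((Nat.card {w : FreeGroup (Fin r) // f w = 1 ∧ w.toWord.length ≤ n} : ℝ))
                  ^ ((1 : ℝ) / (n : ℝ)))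
              Filter.atTop)
            / Real.log (2 * (r : ℝ) - 1)} ∉ Set.Ioo (1 / 2 : ℝ) 1 :=
  fun h => absurd (Pool.Agent.P.MP_751979_al.gap (G := G) h.2) (not_le.2 h.1)

end Pool.Agent.Results.MP_751979_al.Gap
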